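import Pool.Agent.H84.S2.Fin2
import Pool.Agent.H2.SF.GNZ

/-!
# MP_70ba79_ag, board s2l_modules: row GN2 (divisibility of the determinant of a family of curves
at a point of the nodal curve `G = 0`)
-/

set_option autoImplicit false

namespace Pool.Agent.H41.S2

open MvPolynomial SC
open Pool.Agent.H27.LV (ge deg poleOrder canDeg DegreeBound)
open Pool.Agent.H84.SM (cr dt dp)
open Pool.Agent.H84.SL (pd)
open Pool.Agent.H3.SF (Itg Bb BB Hm eu grd hes Sfc Crd Crf Prm)
open Pool.Agent.H84.SF
open Pool.Agent.H3.S2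
open Pool.Agent.H84.S2
open Pool.Agent.H2.SF (exists_cw key int_val proj_ne)

theorem pf_GN2 (hPHI : Pool.Agent.H17.SD.T_PHI) (hHIE : T_HIE) : T_GN2 := by
  intro k F σ _ _ _ _ _ _ X u θ dd J δ j0 c0 c hS m GP sg S hm hG L M _ _ _ _ _ _ Δ P c1 a hc1 hP0
    hP hGP
  obtain ⟨mp, hmp⟩ : ∃ mp : Polynomial L →ₐ[k] Polynomial M,
      ∀ A, mp A = A.map (algebraMap L M) :=
    ⟨Polynomial.mapAlgHom (IsScalarTower.toAlgHom k L M), fun A => rfl⟩
  let K : Type := FractionRing (Polynomial M)
  let ψ : Polynomial M →ₐ[k] K := IsScalarTower.toAlgHom k (Polynomial M) K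
  have hψ : ∀ A, ψ A = algebraMap (Polynomial M) K A := fun A => rfl
  have hinj : Function.Injective ψ := IsFractionRing.injective (Polynomial M) K
  obtain ⟨Q, hQ⟩ : ∃ Q : Fin 3 → Polynomial M, ∀ l, Q l = mp (lin c P l) := ⟨_, fun _ => rfl⟩
  obtain ⟨z, hz⟩ : ∃ z : σ → K, ∀ s, z s = ψ (mp (P s)) := ⟨_, fun _ => rfl⟩
  have hzf : ∀ f : MvPolynomial σ k, aeval z f = ψ (mp (aeval P f)) := by
    intro f
    have a1 := comp_aeval_apply (f := P) (ψ.comp mp) f
    have a2 : z = fun s => (ψ.comp mp) (P s) := funext hz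
    rw [a2, ← a1]
    rfl
  have hzl : ∀ l, ∑ s, c l s • z s = ψ (Q l) := by
    intro l
    rw [hQ]
    simp only [lin, map_sum, map_smul, hz]
  have hlJ : ∀ f : MvPolynomial (Fin 3) k, aeval (fun l => ∑ s, c l s • z s) f = ψ (aeval Q f) := by
    intro f
    have a1 := comp_aeval_apply (f := Q) ψ f
    rw [a1]
    congr 2
    funext l
    exact hzl l
  have hQf : ∀ f : MvPolynomial (Fin 3) k, mp (aeval (lin c P) f) = aeval Q f := by
    intro f
    have a1 := comp_aeval_apply (f := lin c P) mp f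
    rw [a1]
    congr 2
    funext l
    exact (hQ l).symm
  obtain ⟨jQ, hjQ⟩ : ∃ jQ : Polynomial M, jQ = aeval Q J := ⟨_, rfl⟩
  obtain ⟨sQ, hsQ⟩ : ∃ sQ : Polynomial M, sQ = aeval Q S := ⟨_, rfl⟩
  have hgoal : ∀ q : Fin 3 → Polynomial M, (∀ l, q l = pd (fun b => Δ (algebraMap L M b)) (lin c P l)) →
      ∀ w : Fin 3 → Polynomial M, (∀ l, w l = Polynomial.X * Polynomial.derivative (Q l)) →
      Polynomial.X ^ a ∣ jQ * sQ * dt Q q w := by
    intro q hq w hw
    by_cases hj0 : jQ = 0
    · rw [hj0, zero_mul, zero_mul]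
      exact dvd_zero _
    have hJz : aeval (fun l => ∑ s, c l s • z s) J ≠ 0 := by
      rw [hlJ, ← hjQ]
      intro h
      exact hj0 (hinj (h.trans (map_zero ψ).symm))
    obtain ⟨φ, hφ⟩ := hPHI k F σ K X u θ dd J hS.sfc.ind hS.prj z (fun f hf => by
      rw [hzf, hP f hf, map_zero, map_zero]) c hS.lin hJz
    -- the elements of the ring
    have hui : ∀ l, Itg k u (u l) := by
      intro l
      have := (Bb k u).sum_mem (t := Finset.univ) (f := fun s => c l s • X s)
        (fun s _ => (Bb k u).smul_mem (hS.prj.Xint s) _)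
      rw [← hS.lin l] at this
      exact this
    obtain ⟨XB, hXB⟩ : ∃ XB : σ → Bb k u, ∀ s, (XB s : F) = X s :=
      ⟨fun s => ⟨X s, hS.prj.Xint s⟩, fun _ => rfl⟩
    obtain ⟨uB, huB⟩ : ∃ uB : Fin 3 → Bb k u, ∀ l, (uB l : F) = u l :=
      ⟨fun l => ⟨u l, hui l⟩, fun _ => rfl⟩
    have hφX : ∀ s, φ (XB s) = z s := fun s => hφ s (XB s) (hXB s)
    have hφu : ∀ l, φ (uB l) = ψ (Q l) := by
      intro l
      have h1 : uB l = ∑ s, c l s • XB s := by
        apply Subtype.ext
        rw [huB, hS.lin l, AddSubmonoidClass.coe_finsetSum]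
        refine Finset.sum_congr rfl fun s _ => ?_
        rw [SetLike.val_smul, hXB]
      rw [h1, map_sum, ← hzl]
      refine Finset.sum_congr rfl fun s _ => ?_
      rw [map_smul, hφX]
    have hval : ∀ b : Bb k u, ∃ p : Polynomial M, ψ p = φ b :=
      int_val u φ uB huB Q hφu
    choose ρ hρ using hval
    have hρa : ∀ x y, ρ (x + y) = ρ x + ρ y := fun x y => hinj (by
      rw [hρ, map_add, map_add, hρ, hρ])
    have hρm : ∀ x y, ρ (x * y) = ρ x * ρ y := fun x y => hinj (by
      rw [hρ, map_mul, map_mul, hρ, hρ])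
    have hρu : ∀ l, ρ (uB l) = Q l := fun l => hinj (by rw [hρ, hφu])
    obtain ⟨GB, hGB⟩ : ∃ GB : Bb k u, (GB : F) = aeval X GP := ⟨⟨_, hG.crs.itg⟩, rfl⟩
    have hφG : ρ GB = mp (aeval P GP) := by
      have h1 : GB = aeval XB GP := by
        apply Subtype.ext
        have := comp_aeval_apply (f := XB) (Bb k u).val GP
        rw [Subalgebra.coe_val] at this
        rw [this, hGB]
        congr 2
        funext s
        exact (hXB s).symm
      apply hinj
      rw [hρ, h1, comp_aeval_apply, ← hzf]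
      congr 2
      funext s
      exact hφX s
    obtain ⟨jB, hjB⟩ : ∃ jB : Bb k u, jB = aeval uB J := ⟨_, rfl⟩
    have hjBF : (jB : F) = aeval u J := by
      have := comp_aeval_apply (f := uB) (Bb k u).val J
      rw [Subalgebra.coe_val, ← hjB] at this
      rw [this]
      congr 2
      funext l
      exact huB l
    obtain ⟨sB, hsB⟩ : ∃ sB : Bb k u, sB = aeval uB S := ⟨_, rfl⟩
    have hsBF : (sB : F) = aeval u S := by
      have := comp_aeval_apply (f := uB) (Bb k u).val S
      rw [Subalgebra.coe_val, ← hsB] at this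
      rw [this]
      congr 2
      funext l
      exact huB l
    have hρs : ρ sB = sQ := by
      apply hinj
      rw [hρ, hsB, comp_aeval_apply, hsQ, comp_aeval_apply]
      congr 2
      funext l
      exact hφu l
    have hρj : ρ jB = jQ := by
      apply hinj
      rw [hρ, hjB, comp_aeval_apply, hjQ, comp_aeval_apply]
      congr 2
      funext l
      exact hφu l
    obtain ⟨bB, hbB⟩ : ∃ bB : Fin 3 → Bb k u, ∀ l, (bB l : F) = aeval u J * dd l (aeval X GP) :=
      ⟨fun l => ⟨_, hS.sfc.Jd l _ hG.crs.itg⟩, fun _ => rfl⟩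
    have hρG : ρ GB = Polynomial.C (algebraMap L M c1) * Polynomial.X ^ a := by
      rw [hφG, hGP, hmp]
      simp
    -- chain rule
    have hchr : ∀ D : Derivation k (Polynomial M) (Polynomial M),
        jQ * D (Polynomial.C (algebraMap L M c1) * Polynomial.X ^ a) =
          ∑ l, ρ (bB l) * D (Q l) := by
      intro D
      obtain ⟨D', hD'⟩ := Pool.Agent.H91.SFD.ext_der (L := K)
        ((Algebra.linearMap (Polynomial M) K).compDer D)
      have h1 := hS.sfc.chr K φ D' GB jB bB uB hjBF (fun l => by rw [hbB, hGB]) huB (by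
        rw [← hρ, hρj]
        intro h
        exact hj0 (hinj (h.trans (map_zero ψ).symm)))
      have h2 : ∀ A : Polynomial M, D' (ψ A) = ψ (D A) := fun A => hD' A
      apply hinj
      rw [map_mul, map_sum, ← hρj, ← hρG, ← h2, hρ, hρ, h1]
      refine Finset.sum_congr rfl fun l _ => ?_
      rw [map_mul, hρ, ← h2, ← hρu, hρ]
    obtain ⟨n, hcert⟩ := hG.crs.cert
    obtain ⟨i0, hi0⟩ := proj_ne hHIE X u dd hS.sfc.du hS.prj.Xint hS.prj.Xeu c hS.lin P hP0 hP
    have hi0' : ¬ Polynomial.X ∣ Q i0 := by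
      rw [Polynomial.X_dvd_iff, hQ, hmp, Polynomial.coeff_map, map_eq_zero]
      rwa [Polynomial.X_dvd_iff] at hi0
    obtain ⟨e, he, hce⟩ := hcert i0
    refine key Q q w (fun l => ρ (bB l)) (jQ * sQ) a n ?_ ?_ ?_ i0 ?_ hi0'
    · have h1 : ∑ l, bB l * uB l = jB * ((m : Bb k u) * GB) := by
        apply Subtype.ext
        rw [AddSubmonoidClass.coe_finsetSum]
        have h2 : eu u dd (aeval X GP) = ((m : ℤ) : F) * aeval X GP := hG.crs.hom
        have h3 : eu u dd (aeval X GP) = ∑ l, u l * dd l (aeval X GP) := by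
          unfold eu
          rw [Fin.sum_univ_three, Fin.sum_univ_three]
          simp only [Derivation.add_apply, Derivation.smul_apply, smul_eq_mul]
        have h4 : ∀ l, ((bB l * uB l : Bb k u) : F) =
            aeval u J * (u l * dd l (aeval X GP)) := by
          intro l
          rw [MulMemClass.coe_mul, hbB, huB]
          ring
        rw [Finset.sum_congr rfl fun l _ => h4 l, ← Finset.mul_sum, ← h3, h2, MulMemClass.coe_mul,
          MulMemClass.coe_mul, hjBF, hGB]
        simp
      have h2 : ∑ l, ρ (bB l) * Q l = jQ * ((m : Polynomial M) * ρ GB) := by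
        apply hinj
        rw [map_sum, map_mul, map_mul, ← hρj, hρ, hρ, map_natCast, ← map_natCast φ, ← map_mul,
          ← map_mul, ← h1, map_sum]
        refine Finset.sum_congr rfl fun l _ => ?_
        rw [map_mul, map_mul, hρ, hφu]
      show Polynomial.X ^ a ∣ ∑ l, ρ (bB l) * Q l
      rw [h2, hρG]
      exact ⟨jQ * ((m : Polynomial M) * Polynomial.C (algebraMap L M c1)), by ring⟩
    · obtain ⟨D, hD⟩ := exists_cw Δ
      have h1 : ∀ l, D (Q l) = q l := by
        intro l
        ext i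
        rw [hD, hQ, hmp, hq, Polynomial.coeff_map, Pool.Agent.H13.SL.pd_coeff _ (by simp)]
      have h2 : D (Polynomial.C (algebraMap L M c1) * Polynomial.X ^ a) =
          Polynomial.C (Δ (algebraMap L M c1)) * Polynomial.X ^ a := by
        ext i
        rw [hD, Polynomial.coeff_C_mul_X_pow, Polynomial.coeff_C_mul_X_pow]
        split_ifs
        · rfl
        · exact map_zero Δ
      have h3 := hchr D
      rw [h2] at h3
      show Polynomial.X ^ a ∣ ∑ l, ρ (bB l) * q l
      have h4 : ∑ l, ρ (bB l) * q l = ∑ l, ρ (bB l) * D (Q l) :=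
        Finset.sum_congr rfl fun l _ => by rw [h1]
      rw [h4, ← h3]
      exact ⟨jQ * Polynomial.C (Δ (algebraMap L M c1)), by ring⟩
    · let D : Derivation k (Polynomial M) (Polynomial M) :=
        (Polynomial.X : Polynomial M) • (Polynomial.derivative' (R := M)).restrictScalars k
      have hD : ∀ A, D A = Polynomial.X * Polynomial.derivative A := fun A => rfl
      have h3 := hchr D
      show Polynomial.X ^ a ∣ ∑ l, ρ (bB l) * w l
      have h4 : ∑ l, ρ (bB l) * w l = ∑ l, ρ (bB l) * D (Q l) :=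
        Finset.sum_congr rfl fun l _ => by rw [hw, hD]
      rw [h4, ← h3, hD]
      rcases Nat.eq_zero_or_pos a with rfl | ha
      · rw [pow_zero]
        exact one_dvd _
      obtain ⟨b, rfl⟩ : ∃ b, a = b + 1 := ⟨a - 1, by omega⟩
      rw [Polynomial.derivative_C_mul_X_pow, Nat.add_sub_cancel]
      exact ⟨jQ * Polynomial.C (algebraMap L M c1 * (b + 1 : ℕ)), by ring⟩
    · obtain ⟨eB, heB⟩ : ∃ eB : Fin 3 → Bb k u, ∀ l, (eB l : F) = e l :=
        ⟨fun l => ⟨e l, (he l).1⟩, fun _ => rfl⟩
      refine ⟨fun l => ρ (eB l), ?_⟩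
      have h1 : jB * sB * uB i0 ^ n = ∑ l, eB l * bB l := by
        apply Subtype.ext
        rw [AddSubmonoidClass.coe_finsetSum, MulMemClass.coe_mul, MulMemClass.coe_mul,
          SubmonoidClass.coe_pow, hjBF, hsBF, huB, mul_assoc, hce, Finset.mul_sum]
        refine Finset.sum_congr rfl fun l _ => ?_
        rw [MulMemClass.coe_mul, heB, hbB]
        ring
      apply hinj
      rw [map_mul, map_mul, map_pow, map_sum, ← hρj, ← hρs, hρ, hρ, ← hφu, ← map_pow, ← map_mul,
        ← map_mul, h1, map_sum]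
      refine Finset.sum_congr rfl fun l _ => ?_
      rw [map_mul, map_mul, hρ, hρ]
  have hfin := hgoal (fun l => pd (fun b => Δ (algebraMap L M b)) (lin c P l)) (fun _ => rfl)
    (fun l => Polynomial.X * Polynomial.derivative (Q l)) (fun _ => rfl)
  have e1 : (fun i => (lin c P i).map (algebraMap L M)) = Q := by
    funext l
    rw [hQ, hmp]
  have e2 : (fun i => Polynomial.X * (Polynomial.derivative (lin c P i)).map (algebraMap L M)) =
      fun l => Polynomial.X * Polynomial.derivative (Q l) := by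
    funext l
    rw [hQ, hmp, Polynomial.derivative_map]
  rw [e1, e2, ← hmp, hQf, map_mul, ← hjQ, ← hsQ]
  exact hfin

end Pool.Agent.H41.S2
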